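import Pool.Agent.H85.HW.Defs
import Pool.Agent.H82.CL.Unif

/-!
# Module PosX: uniform positivity of `h`

* `pos2`: for fixed `(x₀,y₀)` there is `v₀` with `h x₀ y₀ v₀ > 0` (otherwise the integral is `≤ 0`), and `h x y v₀ > h x₀ y₀ v₀/2` near `(x₀,y₀)`. `IsCompact.induction_on` on `Icc 0 1 ×ˢ Icc 0 1` for the property `∃ c > 0, ∀ p ∈ A, ∃ v, c ≤ h p.1 p.2 v` (as in `unif_pos`, `H82/CL/Unif.lean`); general `(x,y)` by periodicity:
  `per_cube` (H82/CL/Unif) for the function `f0 x z = h x y z` (fixed `y`) and for `f0 y z = h x y z` (fixed `x`).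
* `pos_n`: `unif_pos` for the continuous function `(x,v) ↦ max 0 (h x (N•x) v - c/2)`, periodic in `x` since `N•(x+e_i) = N•x + N•e_i` and `pery` can be iterated `N` times (induction, or `Per.span`), positive somewhere for every `x` by hypothesis; on the balls `h x (N•x) v - c/2 ≥ c_N > 0`.
-/

set_option autoImplicit false

open MeasureTheory Set Filter Topology Pool.Agent.H25.Kin Pool.Agent.H48.PL Pool.Agent.H48.PD
open Pool.Agent.H82.BK Pool.Agent.H82.CM Pool.Agent.H48.PR Pool.Agent.H82.HF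
open Pool.Agent.H82.HW (HRy FamY)

namespace Pool.Agent.H85.HW

variable {d : ℕ} {h : Vec d → Vec d → Vec d → ℝ}

private theorem PosX_cont (hh : Sch2 h) :
    Continuous fun p : Vec d × Vec d × Vec d => h p.1 p.2.1 p.2.2 := (hh.smooth 0).continuous

private theorem PosX_shift (hh : Sch2 h) (i : Fin d) (n : ℕ) (x y v : Vec d) :
    h x (y + (n : ℝ) • Pi.single i 1) v = h x y v := by
  induction n with
  | zero => simp
  | succ n ih =>
    have e : y + ((n + 1 : ℕ) : ℝ) • (Pi.single i 1 : Vec d) = (y + (n : ℝ) • Pi.single i 1) + Pi.single i 1 := by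
      push_cast
      rw [add_smul, one_smul, add_assoc]
    rw [e, hh.pery, ih]

theorem pos2 (hh : Sch2 h) (hv : ∀ x y, 0 < ∫ v, h x y v) :
    ∃ c : ℝ, 0 < c ∧ ∀ x y, ∃ v, c ≤ h x y v := by
  have hpos : ∀ x y, ∃ v, 0 < h x y v := by
    intro x y
    by_contra hc
    push Not at hc
    exact absurd (integral_nonpos hc) (not_le.2 (hv x y))
  have hcomp : IsCompact (Icc (0 : Vec d) 1 ×ˢ Icc (0 : Vec d) 1) := isCompact_Icc.prod isCompact_Icc
  have key : ∃ c : ℝ, 0 < c ∧ ∀ p ∈ Icc (0 : Vec d) 1 ×ˢ Icc (0 : Vec d) 1, ∃ v, c ≤ h p.1 p.2 v := by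
    refine hcomp.induction_on (p := fun A : Set (Vec d × Vec d) => ∃ c : ℝ, 0 < c ∧ ∀ p ∈ A, ∃ v, c ≤ h p.1 p.2 v)
      ?_ ?_ ?_ ?_
    · exact ⟨1, one_pos, fun p hp => absurd hp (notMem_empty p)⟩
    · rintro s t hst ⟨c, h1, h2⟩
      exact ⟨c, h1, fun p hp => h2 p (hst hp)⟩
    · rintro s t ⟨c, h1, h2⟩ ⟨c', h1', h2'⟩
      refine ⟨min c c', lt_min h1 h1', ?_⟩
      rintro p (hp | hp)
      · obtain ⟨v, h3⟩ := h2 p hp
        exact ⟨v, (min_le_left _ _).trans h3⟩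
      · obtain ⟨v, h3⟩ := h2' p hp
        exact ⟨v, (min_le_right _ _).trans h3⟩
    · intro p0 _
      obtain ⟨v0, h0⟩ := hpos p0.1 p0.2
      have hc : Continuous fun q : Vec d × Vec d => h q.1 q.2 v0 :=
        (PosX_cont hh).comp (continuous_fst.prodMk (continuous_snd.prodMk continuous_const))
      have hev : ∀ᶠ q : Vec d × Vec d in 𝓝 p0, h p0.1 p0.2 v0 / 2 < h q.1 q.2 v0 :=
        (hc.tendsto p0).eventually_const_lt (by simpa using half_lt_self h0)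
      exact ⟨{q | h p0.1 p0.2 v0 / 2 < h q.1 q.2 v0}, mem_nhdsWithin_of_mem_nhds hev, h p0.1 p0.2 v0 / 2,
        half_pos h0, fun q hq => ⟨v0, le_of_lt hq⟩⟩
  obtain ⟨c, hc, h1⟩ := key
  refine ⟨c, hc, fun x y => ?_⟩
  obtain ⟨k, hk, hk1⟩ := Pool.Agent.H82.CL.per_cube (f0 := fun x z => h x y z) (fun v x i => hh.perx x y v i) x
  obtain ⟨l, hl, hl1⟩ := Pool.Agent.H82.CL.per_cube (f0 := fun y z => h (x + k) y z)
    (fun v y i => hh.pery (x + k) y v i) y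
  obtain ⟨v, h2⟩ := h1 (x + k, y + l) ⟨hk, hl⟩
  refine ⟨v, ?_⟩
  have e1 : h (x + k) (y + l) v = h (x + k) y v := hl1 y v
  have e2 : h (x + k) y v = h x y v := hk1 x v
  rw [← e2, ← e1]
  exact h2

theorem pos_n (hh : Sch2 h) {c : ℝ} (hc : 0 < c) (hp : ∀ x y, ∃ v, c ≤ h x y v) (N : ℕ) :
    ∃ r V : ℝ, 0 < r ∧ 0 ≤ V ∧ ∀ x, ∃ v₀, nsq v₀ ≤ V ^ 2 ∧ ∀ y w,
      nsq (y - x) + nsq (w - v₀) ≤ r ^ 2 → c / 2 ≤ h y ((N : ℝ) • y) w := by
  have hc1 : Continuous fun p : Vec d × Vec d => h p.1 ((N : ℝ) • p.1) p.2 :=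
    (PosX_cont hh).comp (continuous_fst.prodMk ((continuous_fst.const_smul (N : ℝ)).prodMk continuous_snd))
  have hc2 : Continuous fun p : Vec d × Vec d => max 0 (h p.1 ((N : ℝ) • p.1) p.2 - c / 2) :=
    continuous_const.max (hc1.sub continuous_const)
  obtain ⟨c0, r, V, h1, h2, _, h4, h5⟩ := Pool.Agent.H82.CL.unif_pos
    (f0 := fun x v => max 0 (h x ((N : ℝ) • x) v - c / 2)) hc2 (by
      intro v x i
      show max 0 (h (x + Pi.single i 1) ((N : ℝ) • (x + Pi.single i 1)) v - c / 2) =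
        max 0 (h x ((N : ℝ) • x) v - c / 2)
      rw [smul_add, PosX_shift hh, hh.perx]) (by
      intro x
      obtain ⟨v, hv⟩ := hp x ((N : ℝ) • x)
      exact ⟨v, lt_max_of_lt_right (by linarith)⟩)
  refine ⟨r, V, h2, h4, fun x => ?_⟩
  obtain ⟨v₀, h6, h7⟩ := h5 x
  refine ⟨v₀, h6, fun y w hyw => ?_⟩
  have h8 := h7 y w hyw
  rcases le_max_iff.1 h8 with h9 | h9
  · linarith
  · linarith

end Pool.Agent.H85.HW
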