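import Pool.Agent.H82.HF.Tch3

/-!
# Module GUnif: uniform continuity in time

On `[0,T₂] × Icc 0 1 × closedBall 0 R` (compact) `unc g` is uniformly continuous; outside of the ball `|g| ≤ C (1+‖v‖)^(-1) ≤ η/4` (`decay` with `N = 1`, `R = 4C/η`); periodicity in `x` (`Tch3_per` in `H82/HF/Tch3.lean`, private: copy) reduces to the cube (the reduced point `y` must be the same for the times `t` and `t'`: reduce with `y = fract x`,
`g t y v = g t x v` for all `t`). `g ≥ 0`, so `|g t x v - g t' x v| ≤ max`.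
-/

set_option autoImplicit false

open MeasureTheory Set Filter Topology Pool.Agent.H25.Kin Pool.Agent.H48.PL Pool.Agent.H48.PD
open Pool.Agent.H82.BK Pool.Agent.H82.CM Pool.Agent.H48.PR Pool.Agent.H82.HF

namespace Pool.Agent.H85.HW

variable {d : ℕ}

/-- reduction of the position to the unit cube -/
private lemma GUnif_red (x : Vec d) :
    ∃ y ∈ Icc (0 : Vec d) 1, ∀ F : Vec d → ℝ, Per F → F y = F x := by
  refine ⟨fun i => Int.fract (x i), ⟨fun i => Int.fract_nonneg _, fun i => (Int.fract_lt_one _).le⟩,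
    fun F hF => ?_⟩
  have hl : (fun i => (-(⌊x i⌋ : ℤ) : ℝ)) ∈
      Submodule.span ℤ (Set.range (Pi.basisFun ℝ (Fin d))) := by
    have e : (fun i => (-(⌊x i⌋ : ℤ) : ℝ)) = ∑ i, (-⌊x i⌋ : ℤ) • (Pi.basisFun ℝ (Fin d) i) := by
      funext j
      rw [Finset.sum_apply]
      simp only [Pi.basisFun_apply, Pi.smul_apply, Pi.single_apply]
      rw [Finset.sum_eq_single j]
      · simp
      · intro b _ hb
        simp [Ne.symm hb]
      · intro h
        exact absurd (Finset.mem_univ _) h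
    rw [e]
    exact Submodule.sum_mem _ fun i _ => Submodule.smul_mem _ _
      (Submodule.subset_span (Set.mem_range_self i))
  have h := hF.span hl x
  have e2 : (fun i => (-(⌊x i⌋ : ℤ) : ℝ)) + x = fun i => Int.fract (x i) := by
    funext i
    simp only [Pi.add_apply, Int.fract]
    ring
  rw [e2] at h
  exact h

theorem g_unif {T₁ : ℝ} {Q g : ℝ → Vec d → Vec d → ℝ} (hg : IsClassicalSol T₁ Q g) {T₂ : ℝ}
    (hT : T₂ < T₁) {η : ℝ} (hη : 0 < η) : ∃ δ > 0, ∀ t ∈ Icc 0 T₂, ∀ t' ∈ Icc 0 T₂, |t - t'| ≤ δ →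
      ∀ x v, |g t x v - g t' x v| ≤ η := by
  obtain ⟨C, hC⟩ := hg.decay T₂ hT 1
  have hsub : Icc (0 : ℝ) T₂ ⊆ Ico 0 T₁ := fun t ht => ⟨ht.1, ht.2.trans_lt hT⟩
  set K : Set (ℝ × Vec d × Vec d) :=
    Icc 0 T₂ ×ˢ (Icc (0 : Vec d) 1 ×ˢ Metric.closedBall (0 : Vec d) (C / η)) with hK
  have hKc : IsCompact K := isCompact_Icc.prod (isCompact_Icc.prod (isCompact_closedBall _ _))
  have hgc : ContinuousOn (unc g) (Ico 0 T₁ ×ˢ univ) := hg.isCont
  have hKg : ContinuousOn (unc g) K :=
    hgc.mono fun q hq => ⟨hsub hq.1, mem_univ _⟩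
  have hu := hKc.uniformContinuousOn_of_continuous hKg
  rw [Metric.uniformContinuousOn_iff] at hu
  obtain ⟨δ, hδ, hδu⟩ := hu η hη
  refine ⟨δ / 2, half_pos hδ, fun t ht t' ht' htt x v => ?_⟩
  by_cases hv : ‖v‖ ≤ C / η
  · obtain ⟨y, hy, hyF⟩ := GUnif_red x
    have e1 : g t y v = g t x v := hyF (fun x => g t x v) fun x i => hg.periodic t (hsub ht) x v i
    have e2 : g t' y v = g t' x v := hyF (fun x => g t' x v) fun x i => hg.periodic t' (hsub ht') x v i
    have hvb : v ∈ Metric.closedBall (0 : Vec d) (C / η) := by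
      rw [Metric.mem_closedBall, dist_zero_right]
      exact hv
    have h1 := hδu (t, y, v) ⟨ht, hy, hvb⟩ (t', y, v) ⟨ht', hy, hvb⟩ (by
      rw [Prod.dist_eq, dist_self, Real.dist_eq]
      exact max_lt (by linarith) hδ)
    rw [Real.dist_eq] at h1
    have h2 : |g t y v - g t' y v| < η := h1
    rw [e1, e2] at h2
    exact h2.le
  · push Not at hv
    have hb : ∀ s ∈ Icc (0 : ℝ) T₂, g s x v ≤ η := by
      intro s hs
      have h1 := hC s hs x v
      rw [pow_one] at h1
      have h2 : C < ‖v‖ * η := by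
        rwa [div_lt_iff₀ hη] at hv
      have hn := norm_nonneg v
      by_contra hcon
      push Not at hcon
      have h3 : (1 + ‖v‖) * η ≤ (1 + ‖v‖) * g s x v :=
        mul_le_mul_of_nonneg_left hcon.le (by linarith)
      nlinarith
    have p1 := hg.nonneg t (hsub ht) x v
    have p2 := hg.nonneg t' (hsub ht') x v
    rw [abs_le]
    constructor <;> linarith [hb t ht, hb t' ht']

end Pool.Agent.H85.HW
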