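import Pool.Agent.H85.HW.CoX
import Pool.Agent.H15.AV.Defs
import Pool.Agent.H48.PR.HolD
import Pool.Agent.H82.HF.Amp

/-!
# Module AvX: properties of the average

* `avX_nn`: `avT_nn`. `avX_pos`: some `h x 0 v₀ > 0` (otherwise the integral is `≤ 0`), `avT_pos` for `h x` (`(s2_sch hh).sch x`).
* `hry_cont`: `|F x' v' - F x v| ≤ |F x' v' - F x v'| + |F x v' - F x v|`, `lip` (`≤ M len(x'-x)`, `Wp ≤ 1`) and `hr_cont` (continuity of `F x`).
* `avX_slice`: continuity by `hry_cont` and `avX_hx hh 1`; decay: `avX_hx hh N`: `|avX| ≤ M Wp N v`, `(1+‖v‖)^N Wp N v ≤ 2^N` (`ThmV_W` in `H48/CV/ThmV.lean` on main: copy the private lemma).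
* `avX_hol`: exponent `1`, `k = 0`: `|F x v - F y w| ≤ |F x v - F y v| + |F y v - F y w| ≤ M len(x-y) + 2 M len(v-w)`, `len z ≤ (d+1) ‖z‖` (`ThmV_len`: copy).
-/

set_option autoImplicit false

open MeasureTheory Set Filter Topology Pool.Agent.H25.Kin Pool.Agent.H48.PL Pool.Agent.H48.PD
open Pool.Agent.H82.BK Pool.Agent.H82.CM Pool.Agent.H48.PR Pool.Agent.H82.HF
open Pool.Agent.H82.HW (HRy FamY)

namespace Pool.Agent.H85.HW

open Pool.Agent.H15.AV (Slice)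

variable {d : ℕ} {h : Vec d → Vec d → Vec d → ℝ}

private lemma AvX_W (N : ℕ) (v : Vec d) : (1 + ‖v‖) ^ N * Wp N v ≤ 2 ^ N := by
  have h0 := norm_nonneg v
  have h1 : (1 + ‖v‖) ^ 2 ≤ 2 * (1 + nsq v) := by
    have h2 : ‖v‖ ^ 2 ≤ nsq v := by
      have := pow_le_pow_left₀ h0 (norm_le_len v) 2
      rwa [len_sq] at this
    nlinarith [sq_nonneg (1 - ‖v‖)]
  have h3 : 0 < 1 + nsq v := by
    have := sq_nonneg' v
    linarith
  have h4 : 1 + ‖v‖ ≤ 2 * (1 + nsq v) := by nlinarith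
  unfold Wp
  rw [← div_eq_mul_inv, div_le_iff₀ (by positivity), ← mul_pow]
  exact pow_le_pow_left₀ (by linarith) h4 N

private lemma AvX_len (v : Vec d) : len v ≤ ((d : ℝ) + 1) * ‖v‖ := by
  have h0 := norm_nonneg v
  have h1 : (0 : ℝ) ≤ d := Nat.cast_nonneg _
  refine le_of_pow_le_pow_left₀ two_ne_zero (by positivity) ?_
  rw [len_sq]
  have h3 := sq_le v
  nlinarith [mul_nonneg h1 (sq_nonneg ‖v‖), sq_nonneg ‖v‖]

private lemma AvX_len0 : len (0 : Vec d) = 0 := by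
  have h1 := AvX_len (0 : Vec d)
  rw [norm_zero, mul_zero] at h1
  exact le_antisymm h1 (len_nonneg _)

theorem hry_cont {α : ℝ} (hα : 0 < α) {q : ℕ} {M : ℝ} {F : Vec d → Vec d → ℝ} (hF : HRy α q M F) :
    Continuous fun p : Vec d × Vec d => F p.1 p.2 := by
  rw [continuous_iff_continuousAt]
  intro p
  have hM0 := (hF.hr p.1).nn
  have hc : Continuous (F p.1) := hr_cont hα (hF.hr p.1)
  have h1 : Tendsto (fun r : Vec d × Vec d => M * len (r.1 - p.1) + |F p.1 r.2 - F p.1 p.2|)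
      (𝓝 p) (𝓝 0) := by
    have h2 : Continuous fun r : Vec d × Vec d =>
        M * len (r.1 - p.1) + |F p.1 r.2 - F p.1 p.2| := by
      have h3 : Continuous fun r : Vec d × Vec d => len (r.1 - p.1) :=
        continuous_len.comp (continuous_fst.sub continuous_const)
      have h4 : Continuous fun r : Vec d × Vec d => F p.1 r.2 := hc.comp continuous_snd
      exact (continuous_const.mul h3).add (h4.sub continuous_const).abs
    have h5 := h2.tendsto p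
    simpa [AvX_len0] using h5
  refine tendsto_iff_norm_sub_tendsto_zero.2 ?_
  refine squeeze_zero (fun r => norm_nonneg _) (fun r => ?_) h1
  have h6 := hF.lip r.1 p.1 r.2
  have h7 : |F r.1 r.2 - F p.1 r.2| ≤ M * len (r.1 - p.1) := by
    refine h6.trans ?_
    have h8 : 0 ≤ M * len (r.1 - p.1) := mul_nonneg hM0 (len_nonneg _)
    calc M * len (r.1 - p.1) * Wp q r.2 ≤ M * len (r.1 - p.1) * 1 :=
          mul_le_mul_of_nonneg_left (Wp_le_one _ _) h8
      _ = M * len (r.1 - p.1) := mul_one _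
  rw [Real.norm_eq_abs]
  calc |F r.1 r.2 - F p.1 p.2| ≤ |F r.1 r.2 - F p.1 r.2| + |F p.1 r.2 - F p.1 p.2| :=
        abs_sub_le _ _ _
    _ ≤ M * len (r.1 - p.1) + |F p.1 r.2 - F p.1 p.2| := by linarith

theorem avX_nn (hn : ∀ x y v, 0 ≤ h x y v) (x v : Vec d) : 0 ≤ avX h x v :=
  avT_nn (hn x) v

theorem avX_pos (hh : Sch2 h) (hn : ∀ x y v, 0 ≤ h x y v) (hv : ∀ x y, 0 < ∫ v, h x y v)
    (x : Vec d) : 0 < ∫ v, avX h x v := by
  have h1 : ∃ v₀, 0 < h x 0 v₀ := by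
    by_contra hcon
    push Not at hcon
    have h2 : ∫ v, h x 0 v ≤ 0 := integral_nonpos fun v => hcon v
    exact absurd (hv x 0) (not_lt.2 h2)
  obtain ⟨v₀, hv₀⟩ := h1
  exact avT_pos ((s2_sch hh).sch x) (hn x) hv₀

theorem avX_slice (hh : Sch2 h) (hn : ∀ x y v, 0 ≤ h x y v) : Slice (avX h) := by
  obtain ⟨M, hM0, hM⟩ := avX_hx hh 1
  refine ⟨fun x v => avX_nn hn x v, fun x v i => hM.per x i v, hry_cont one_pos hM, fun N => ?_⟩
  obtain ⟨M', hM'0, hM'⟩ := avX_hx hh N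
  refine ⟨M' * 2 ^ N, fun x v => ?_⟩
  have h1 := (le_abs_self _).trans ((hM'.hr x).le v)
  have h2 : 0 < (1 + ‖v‖) ^ N := by
    have := norm_nonneg v
    positivity
  calc (1 + ‖v‖) ^ N * avX h x v ≤ (1 + ‖v‖) ^ N * (M' * Wp N v) :=
        mul_le_mul_of_nonneg_left h1 h2.le
    _ = M' * ((1 + ‖v‖) ^ N * Wp N v) := by ring
    _ ≤ M' * 2 ^ N := mul_le_mul_of_nonneg_left (AvX_W N v) hM'0

theorem avX_hol (hh : Sch2 h) : HolData 1 (avX h) := by
  obtain ⟨M, hM0, hM⟩ := avX_hx hh 1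
  refine ⟨2 * M * ((d : ℝ) + 1), 0, fun x y v w => ?_⟩
  have h1 := (hM.hr y).hol w (v - w)
  rw [add_sub_cancel, Real.rpow_one] at h1
  have h2 : min 1 (len (v - w)) ≤ ((d : ℝ) + 1) * ‖v - w‖ := (min_le_right _ _).trans (AvX_len _)
  have h3 := Wp_le_one 1 v
  have h4 := Wp_le_one 1 w
  have h5 := (Wp_pos 1 v).le
  have h6 := (Wp_pos 1 w).le
  have h7 : 0 ≤ min 1 (len (v - w)) := le_min zero_le_one (len_nonneg _)
  have h8 := norm_nonneg (x - y)
  have h9 : (0 : ℝ) ≤ d := Nat.cast_nonneg _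
  have h10 : |avX h y v - avX h y w| ≤ 2 * M * ((d : ℝ) + 1) * ‖v - w‖ := by
    calc |avX h y v - avX h y w| ≤ M * min 1 (len (v - w)) * (Wp 1 w + Wp 1 v) := h1
      _ ≤ M * (((d : ℝ) + 1) * ‖v - w‖) * 2 :=
          mul_le_mul (mul_le_mul_of_nonneg_left h2 hM0) (by linarith) (by positivity)
            (by positivity)
      _ = 2 * M * ((d : ℝ) + 1) * ‖v - w‖ := by ring
  have h11 : |avX h x v - avX h y v| ≤ 2 * M * ((d : ℝ) + 1) * ‖x - y‖ := by
    calc |avX h x v - avX h y v| ≤ M * len (x - y) * Wp 1 v := hM.lip x y v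
      _ ≤ M * (((d : ℝ) + 1) * ‖x - y‖) * 1 :=
          mul_le_mul (mul_le_mul_of_nonneg_left (AvX_len _) hM0) h3 h5 (by positivity)
      _ ≤ 2 * M * ((d : ℝ) + 1) * ‖x - y‖ := by
          have : 0 ≤ M * (((d : ℝ) + 1) * ‖x - y‖) := by positivity
          linarith
  rw [pow_zero, mul_one, Real.rpow_one]
  calc |avX h x v - avX h y w| ≤ |avX h x v - avX h y v| + |avX h y v - avX h y w| :=
        abs_sub_le _ _ _
    _ ≤ 2 * M * ((d : ℝ) + 1) * ‖x - y‖ + 2 * M * ((d : ℝ) + 1) * ‖v - w‖ := add_le_add h11 h10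
    _ = 2 * M * ((d : ℝ) + 1) * (‖x - y‖ + ‖v - w‖) := by ring

end Pool.Agent.H85.HW
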