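import Pool.Agent.H85.HW.Defs

/-!
# Module S2F: slices and difference quotients of a function of the class `Sch2`

`H p = h p.1 p.2.1 p.2.2` on `Vec d × Vec d × Vec d`, `L : Vec d × Vec d → Vec d × Vec d × Vec d`, `L z = (0, z.1, z.2)` (continuous linear, `ContinuousLinearMap.inr`; `‖L‖ ≤ 1`). The slice is `z ↦ h x z.1 z.2 = H ((x,0,0) + L z)`.
* `slice_it`: `iteratedFDeriv m (slice x) z = (iteratedFDeriv m H (x, z.1, z.2)).compContinuousLinearMap (fun _ => L)`: `iteratedFDeriv_comp_add_left` (translation) and `ContinuousLinearMap.iteratedFDeriv_comp_right`.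
* `s2_sch`: smoothness of the slice: composition; period: `pery`; decay: `‖compContinuousLinearMap‖ ≤ ‖iteratedFDeriv m H‖ ‖L‖^m` (`ContinuousMultilinearMap.norm_compContinuousLinearMap_le`).
* `s2_dif`: for fixed `p = (x,x')` the quotient is smooth and periodic in `y` (constant factor `‖x-x'‖⁻¹`). Decay: for `x = x'` the function is `0` (`a/0 = 0`). Otherwise `iteratedFDeriv m` of the quotient is `‖x-x'‖⁻¹ (J x - J x')` with `J x = iteratedFDeriv m (slice x) z` (`iteratedFDeriv_sub`, `iteratedFDeriv_const_smul`-type lemmas),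
  `J x - J x' = (A x - A x').compContinuousLinearMap L` with `A x = iteratedFDeriv m H (x, z.1, z.2)`, and `‖A x - A x'‖ ≤ sup ‖fderiv (iteratedFDeriv m H)‖ ‖x - x'‖` on the segment (`Convex.norm_image_sub_le_of_norm_fderiv_le` on `univ`, applied to `x ↦ iteratedFDeriv m H (x, z.1, z.2)`, or along the segment),
  `‖fderiv (iteratedFDeriv m H) q‖ = ‖iteratedFDeriv (m+1) H q‖` (`norm_fderiv_iteratedFDeriv`) `≤ C (1+‖v‖)^(-N)` (`dec N (m+1)`), `v = z.2` is constant on the segment.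
-/

set_option autoImplicit false

open MeasureTheory Set Filter Topology Pool.Agent.H25.Kin Pool.Agent.H48.PL Pool.Agent.H48.PD
open Pool.Agent.H82.BK Pool.Agent.H82.CM Pool.Agent.H48.PR Pool.Agent.H82.HF
open Pool.Agent.H82.HW (HRy FamY)

namespace Pool.Agent.H85.HW

variable {d : ℕ} {h : Vec d → Vec d → Vec d → ℝ}

private theorem S2F_gen (F : Vec d × Vec d × Vec d → ℝ) (m : ℕ) (hF : ContDiff ℝ m F)
    (x : Vec d) (z : Vec d × Vec d) :
    iteratedFDeriv ℝ m (fun z : Vec d × Vec d => F (x, z.1, z.2)) z =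
      (iteratedFDeriv ℝ m F (x, z.1, z.2)).compContinuousLinearMap
          (fun _ => ContinuousLinearMap.inr ℝ (Vec d) (Vec d × Vec d)) := by
  have hs : ContDiff ℝ m (fun q : Vec d × Vec d × Vec d =>
      F ((x, (0 : Vec d), (0 : Vec d)) + q)) :=
    hF.comp (contDiff_const.add contDiff_id)
  have hc : (fun z : Vec d × Vec d => F (x, z.1, z.2)) =
      (fun q : Vec d × Vec d × Vec d => F ((x, (0 : Vec d), (0 : Vec d)) + q)) ∘
        (ContinuousLinearMap.inr ℝ (Vec d) (Vec d × Vec d)) := by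
    funext w
    have hw : ((0 : Vec d), (0 : Vec d)) + w = w := zero_add w
    simp [ContinuousLinearMap.inr_apply, hw]
  rw [hc, ContinuousLinearMap.iteratedFDeriv_comp_right _ hs z le_rfl,
    iteratedFDeriv_comp_add_left]
  have hz : (x, (0 : Vec d), (0 : Vec d)) +
      (ContinuousLinearMap.inr ℝ (Vec d) (Vec d × Vec d)) z = (x, z.1, z.2) := by
    have hw : ((0 : Vec d), (0 : Vec d)) + z = z := zero_add z
    simp [ContinuousLinearMap.inr_apply, hw]
  rw [hz]

private theorem S2F_slice (hh : Sch2 h) (m : ℕ) (x : Vec d) (z : Vec d × Vec d) :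
    iteratedFDeriv ℝ m (fun z : Vec d × Vec d => h x z.1 z.2) z =
      (iteratedFDeriv ℝ m (fun p : Vec d × Vec d × Vec d => h p.1 p.2.1 p.2.2)
        (x, z.1, z.2)).compContinuousLinearMap
          (fun _ => ContinuousLinearMap.inr ℝ (Vec d) (Vec d × Vec d)) :=
  S2F_gen (fun p : Vec d × Vec d × Vec d => h p.1 p.2.1 p.2.2) m (hh.smooth m) x z

private theorem S2F_norm (m : ℕ)
    (A : (Vec d × Vec d × Vec d) [×m]→L[ℝ] ℝ) :
    ‖A.compContinuousLinearMap
      (fun _ => ContinuousLinearMap.inr ℝ (Vec d) (Vec d × Vec d))‖ ≤ ‖A‖ := by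
  refine (ContinuousMultilinearMap.norm_compContinuousLinearMap_le _ _).trans ?_
  refine mul_le_of_le_one_right (norm_nonneg _) ?_
  exact Finset.prod_le_one (fun _ _ => norm_nonneg _)
    (fun _ _ => ContinuousLinearMap.norm_inr_le_one ℝ (Vec d) (Vec d × Vec d))

private theorem S2F_smooth (hh : Sch2 h) (x : Vec d) (n : ℕ) :
    ContDiff ℝ n (fun z : Vec d × Vec d => h x z.1 z.2) :=
  (hh.smooth n).comp (contDiff_const.prodMk contDiff_id)

private theorem S2F_lip (hh : Sch2 h) (m : ℕ) (z : Vec d × Vec d) (K : ℝ)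
    (hK : ∀ x : Vec d, ‖iteratedFDeriv ℝ (m + 1)
      (fun p : Vec d × Vec d × Vec d => h p.1 p.2.1 p.2.2) (x, z.1, z.2)‖ ≤ K) (x x' : Vec d) :
    ‖iteratedFDeriv ℝ m (fun p : Vec d × Vec d × Vec d => h p.1 p.2.1 p.2.2) (x, z.1, z.2) -
      iteratedFDeriv ℝ m (fun p : Vec d × Vec d × Vec d => h p.1 p.2.1 p.2.2) (x', z.1, z.2)‖ ≤
      K * ‖x - x'‖ := by
  have hd : Differentiable ℝ (iteratedFDeriv ℝ m
      (fun p : Vec d × Vec d × Vec d => h p.1 p.2.1 p.2.2)) :=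
    (hh.smooth (m + 1)).differentiable_iteratedFDeriv (by exact_mod_cast Nat.lt_succ_self m)
  have hf : ∀ y : Vec d, HasFDerivAt (fun y : Vec d => iteratedFDeriv ℝ m
      (fun p : Vec d × Vec d × Vec d => h p.1 p.2.1 p.2.2) (y, z.1, z.2))
      ((fderiv ℝ (iteratedFDeriv ℝ m
        (fun p : Vec d × Vec d × Vec d => h p.1 p.2.1 p.2.2)) (y, z.1, z.2)).comp
        (ContinuousLinearMap.inl ℝ (Vec d) (Vec d × Vec d))) y := by
    intro y
    have h1 := (hd (y, z.1, z.2)).hasFDerivAt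
    exact HasFDerivAt.comp y h1 (hasFDerivAt_prodMk_left y (z.1, z.2))
  refine Convex.norm_image_sub_le_of_norm_hasFDerivWithin_le
    (f := fun y : Vec d => iteratedFDeriv ℝ m
      (fun p : Vec d × Vec d × Vec d => h p.1 p.2.1 p.2.2) (y, z.1, z.2))
    (fun y _ => (hf y).hasFDerivWithinAt) (fun y _ => ?_) convex_univ (mem_univ x') (mem_univ x)
  refine (ContinuousLinearMap.opNorm_comp_le _ _).trans ?_
  refine (mul_le_of_le_one_right (norm_nonneg _)
    (ContinuousLinearMap.norm_inl_le_one ℝ (Vec d) (Vec d × Vec d))).trans ?_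
  rw [norm_fderiv_iteratedFDeriv]
  exact hK y

theorem s2_sch (hh : Sch2 h) : SchF h := by
  have hdec : ∀ N m : ℕ, ∃ C : ℝ, ∀ p x v,
      (1 + ‖v‖) ^ N * ‖iteratedFDeriv ℝ m (fun z : Vec d × Vec d => h p z.1 z.2) (x, v)‖ ≤ C := by
    intro N m
    obtain ⟨C, hC⟩ := hh.dec N m
    refine ⟨C, fun p x v => ?_⟩
    refine le_trans ?_ (hC p x v)
    rw [S2F_slice hh m p (x, v)]
    exact mul_le_mul_of_nonneg_left (S2F_norm m _) (by positivity)
  refine ⟨fun p => ⟨fun n => S2F_smooth hh p n, fun x v i => hh.pery p x v i, fun N m => ?_⟩, hdec⟩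
  obtain ⟨C, hC⟩ := hdec N m
  exact ⟨C, fun x v => hC p x v⟩

theorem s2_dif (hh : Sch2 h) :
    SchF (fun (p : Vec d × Vec d) (y v : Vec d) => (h p.1 y v - h p.2 y v) / ‖p.1 - p.2‖) := by
  have hdec : ∀ N m : ℕ, ∃ C : ℝ, ∀ (p : Vec d × Vec d) (x v : Vec d),
      (1 + ‖v‖) ^ N * ‖iteratedFDeriv ℝ m (fun z : Vec d × Vec d =>
        (h p.1 z.1 z.2 - h p.2 z.1 z.2) / ‖p.1 - p.2‖) (x, v)‖ ≤ C := by
    intro N m
    obtain ⟨C, hC⟩ := hh.dec N (m + 1)
    have hC0 : 0 ≤ C := le_trans (by positivity) (hC 0 0 0)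
    refine ⟨C, fun p y v => ?_⟩
    have hv : 0 < (1 + ‖v‖) ^ N := by positivity
    have hK : ∀ x : Vec d, ‖iteratedFDeriv ℝ (m + 1)
        (fun p : Vec d × Vec d × Vec d => h p.1 p.2.1 p.2.2) (x, y, v)‖ ≤
          C / (1 + ‖v‖) ^ N := by
      intro x
      rw [le_div_iff₀ hv, mul_comm]
      exact hC x y v
    have hL := S2F_lip hh m (y, v) _ hK p.1 p.2
    have he : (fun z : Vec d × Vec d => (h p.1 z.1 z.2 - h p.2 z.1 z.2) / ‖p.1 - p.2‖) =
        (‖p.1 - p.2‖⁻¹ : ℝ) • ((fun z : Vec d × Vec d => h p.1 z.1 z.2) -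
          (fun z : Vec d × Vec d => h p.2 z.1 z.2)) := by
      funext z
      simp [div_eq_inv_mul]
    have h1 : ContDiff ℝ m (fun z : Vec d × Vec d => h p.1 z.1 z.2) := S2F_smooth hh p.1 m
    have h2 : ContDiff ℝ m (fun z : Vec d × Vec d => h p.2 z.1 z.2) := S2F_smooth hh p.2 m
    have h12 : ContDiff ℝ m ((fun z : Vec d × Vec d => h p.1 z.1 z.2) -
        (fun z : Vec d × Vec d => h p.2 z.1 z.2)) := h1.sub h2
    rw [he, iteratedFDeriv_const_smul_apply h12.contDiffAt,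
      iteratedFDeriv_sub_apply h1.contDiffAt h2.contDiffAt, S2F_slice hh m p.1 (y, v),
      S2F_slice hh m p.2 (y, v), norm_smul, norm_inv, norm_norm]
    have h3 : ‖(iteratedFDeriv ℝ m (fun p : Vec d × Vec d × Vec d => h p.1 p.2.1 p.2.2)
        (p.1, y, v)).compContinuousLinearMap
          (fun _ => ContinuousLinearMap.inr ℝ (Vec d) (Vec d × Vec d)) -
        (iteratedFDeriv ℝ m (fun p : Vec d × Vec d × Vec d => h p.1 p.2.1 p.2.2)
        (p.2, y, v)).compContinuousLinearMap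
          (fun _ => ContinuousLinearMap.inr ℝ (Vec d) (Vec d × Vec d))‖ ≤
        C / (1 + ‖v‖) ^ N * ‖p.1 - p.2‖ := by
      refine le_trans ?_ hL
      have h4 := S2F_norm m
        (iteratedFDeriv ℝ m (fun p : Vec d × Vec d × Vec d => h p.1 p.2.1 p.2.2) (p.1, y, v) -
        iteratedFDeriv ℝ m (fun p : Vec d × Vec d × Vec d => h p.1 p.2.1 p.2.2) (p.2, y, v))
      exact h4
    rcases eq_or_lt_of_le (norm_nonneg (p.1 - p.2)) with h0 | h0
    · rw [← h0, inv_zero, zero_mul, mul_zero]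
      exact hC0
    · calc (1 + ‖v‖) ^ N * (‖p.1 - p.2‖⁻¹ * _)
          ≤ (1 + ‖v‖) ^ N * (‖p.1 - p.2‖⁻¹ * (C / (1 + ‖v‖) ^ N * ‖p.1 - p.2‖)) := by
            gcongr
        _ = C := by field_simp
  refine ⟨fun p => ⟨fun n => ?_, fun x v i => ?_, fun N m => ?_⟩, hdec⟩
  · exact ((S2F_smooth hh p.1 n).sub (S2F_smooth hh p.2 n)).div_const _
  · simp only [hh.pery]
  · obtain ⟨C, hC⟩ := hdec N m
    exact ⟨C, fun x v => hC p x v⟩

end Pool.Agent.H85.HW
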