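import Pool.Agent.H85.HW.FouF
import Pool.Agent.H85.HW.S2F
import Pool.Agent.H82.HF.Cls

/-!
# Module CoX: the coefficients as functions of `(x,v)`

* `co_hx`: `hr` by `coF_hr (s2_sch hh)` (constant `M₁`). `lip`: `aC (h x) k v - aC (h x') k v = ‖x-x'‖ aC (quotient (x,x')) k v` (for `x = x'` both sides are `0`; otherwise `integral_sub`, `integral_const_mul`, integrable on the cube by continuity, `sch_cont`), so by
  `coF_hr (s2_dif hh)` (constant `M₂`, `HR.le`) `≤ ‖x-x'‖ M₂ Wp q v ≤ len(x-x') M₂ Wp q v` (`norm_le_len`). `M = M₁ + M₂`; `HR` is monotone in the constant (`opV_const` in `H82/HF/OpV.lean`, private: copy). `per`: `h (x+e_i) = h x` by `funext` from `perx`.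
* `avX_hx`: `avX h x = avT (h x) = aC (h x) 0` (`Cls_av` in `H82/HF/Cls.lean`, private: copy).
-/

set_option autoImplicit false

open MeasureTheory Set Filter Topology Pool.Agent.H25.Kin Pool.Agent.H48.PL Pool.Agent.H48.PD
open Pool.Agent.H82.BK Pool.Agent.H82.CM Pool.Agent.H48.PR Pool.Agent.H82.HF
open Pool.Agent.H82.HW (HRy FamY)

namespace Pool.Agent.H85.HW

variable {d : ℕ} {h : Vec d → Vec d → Vec d → ℝ}

/-- the average over the fast variable -/
noncomputable def avX (h : Vec d → Vec d → Vec d → ℝ) (x v : Vec d) : ℝ := avT (h x) v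

private lemma CoX_const {α : ℝ} {q : ℕ} {M M' : ℝ} {a : Vec d → ℝ} (h : HR α q M a)
    (hM : M ≤ M') : HR α q M' a where
  nn := h.nn.trans hM
  le := fun v => (h.le v).trans (mul_le_mul_of_nonneg_right hM (Wp_pos q v).le)
  hol := fun v z => by
    refine (h.hol v z).trans ?_
    have h1 : 0 ≤ min 1 (len z) ^ α :=
      Real.rpow_nonneg (le_min zero_le_one (Real.sqrt_nonneg _)) α
    have h2 : 0 ≤ Wp q v + Wp q (v + z) := add_nonneg (Wp_pos q v).le (Wp_pos q (v + z)).le
    exact mul_le_mul_of_nonneg_right (mul_le_mul_of_nonneg_right hM h1) h2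

private lemma CoX_int {g : Vec d → Vec d → ℝ} (hg : SchT g) (v : Vec d) {c : Vec d → ℝ}
    (hc : Continuous c) : IntegrableOn (fun x => g x v * c x) (Icc (0 : Vec d) 1) := by
  have h1 : Continuous fun x : Vec d => g x v :=
    (sch_cont hg).comp (continuous_id.prodMk continuous_const)
  exact (h1.mul hc).continuousOn.integrableOn_compact isCompact_Icc

private lemma CoX_sub {g₁ g₂ : Vec d → Vec d → ℝ} (h1 : SchT g₁) (h2 : SchT g₂) (v : Vec d)
    {c : Vec d → ℝ} (hc : Continuous c) {r : ℝ} (hr : r = 0 → g₁ = g₂) :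
    (∫ x in Icc (0 : Vec d) 1, g₁ x v * c x) - ∫ x in Icc (0 : Vec d) 1, g₂ x v * c x =
      r * ∫ x in Icc (0 : Vec d) 1, (g₁ x v - g₂ x v) / r * c x := by
  rcases eq_or_ne r 0 with h0 | h0
  · rw [hr h0, sub_self, h0, zero_mul]
  · rw [← integral_sub (CoX_int h1 v hc) (CoX_int h2 v hc), ← integral_const_mul]
    refine integral_congr_ae (Eventually.of_forall fun x => ?_)
    show g₁ x v * c x - g₂ x v * c x = r * ((g₁ x v - g₂ x v) / r * c x)
    field_simp

private lemma CoX_lip {q : ℕ} {M : ℝ} (hh : Sch2 h) {c : Vec d → ℝ} (hc : Continuous c)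
    (hM : ∀ p : Vec d × Vec d, HR 1 q M (fun v => ∫ x in Icc (0 : Vec d) 1,
      (h p.1 x v - h p.2 x v) / ‖p.1 - p.2‖ * c x)) (y y' v : Vec d) :
    |(∫ x in Icc (0 : Vec d) 1, h y x v * c x) - ∫ x in Icc (0 : Vec d) 1, h y' x v * c x| ≤
      M * len (y - y') * Wp q v := by
  rw [CoX_sub ((s2_sch hh).sch y) ((s2_sch hh).sch y') v hc (r := ‖y - y'‖) fun h0 => by
    rw [norm_eq_zero, sub_eq_zero] at h0
    rw [h0], abs_mul, abs_norm]
  have h1 := (hM (y, y')).le v
  have h2 : ‖y - y'‖ ≤ len (y - y') := norm_le_len _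
  have h3 := mul_le_mul h2 h1 (abs_nonneg _) (Real.sqrt_nonneg _)
  refine h3.trans (le_of_eq ?_)
  ring


theorem co_hx (hh : Sch2 h) (q : ℕ) : ∃ M : ℝ, 0 ≤ M ∧ ∀ k : Fin d → ℤ,
    HRy 1 q M (fun x => aC (h x) k) ∧ HRy 1 q M (fun x => bC (h x) k) := by
  obtain ⟨M₁, hM₁, H1⟩ := coF_hr (s2_sch hh) q
  obtain ⟨M₂, hM₂, H2⟩ := coF_hr (s2_dif hh) q
  have hle1 : M₁ ≤ M₁ + M₂ := by linarith
  have hle2 : M₂ ≤ M₁ + M₂ := by linarith
  have hdot : ∀ k : Fin d → ℤ, Continuous fun x : Vec d => dot (kv k) x := by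
    intro k
    unfold dot
    fun_prop
  have hper : ∀ y i, h (y + Pi.single i 1) = h y := fun y i => by
    funext x v
    exact hh.perx y x v i
  refine ⟨M₁ + M₂, by linarith, fun k => ⟨⟨fun y => CoX_const (H1 y k).1 hle1, ?_, ?_⟩,
    ⟨fun y => CoX_const (H1 y k).2 hle1, ?_, ?_⟩⟩⟩
  · intro y y' v
    have hc : Continuous fun x : Vec d => Real.cos (2 * Real.pi * dot (kv k) x) :=
      Real.continuous_cos.comp (continuous_const.mul (hdot k))
    exact CoX_lip hh hc (fun p => CoX_const (H2 p k).1 hle2) y y' v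
  · intro y i v
    show aC (h (y + Pi.single i 1)) k v = aC (h y) k v
    rw [hper]
  · intro y y' v
    have hc : Continuous fun x : Vec d => Real.sin (2 * Real.pi * dot (kv k) x) :=
      Real.continuous_sin.comp (continuous_const.mul (hdot k))
    exact CoX_lip hh hc (fun p => CoX_const (H2 p k).2 hle2) y y' v
  · intro y i v
    show bC (h (y + Pi.single i 1)) k v = bC (h y) k v
    rw [hper]

theorem avX_hx (hh : Sch2 h) (q : ℕ) : ∃ M : ℝ, 0 ≤ M ∧ HRy 1 q M (avX h) := by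
  obtain ⟨M, hM, H⟩ := co_hx hh q
  refine ⟨M, hM, ?_⟩
  have he : avX h = fun x => aC (h x) 0 := by
    funext x v
    unfold avX avT aC
    have h0 : ∀ y : Vec d, dot (kv (0 : Fin d → ℤ)) y = 0 := fun y => by
      unfold dot kv
      simp
    simp only [h0, mul_zero, Real.cos_zero, mul_one]
  rw [he]
  exact (H 0).1

end Pool.Agent.H85.HW
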