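import Pool.Agent.H85.HW.EarlyX

/-!
# Module LateX: a stable average gives bounds for the oscillating data

`Nb`: all solutions which start close to `F₀` obey bounds. `U₁` from `early`; `Nb` with `B' = U₁` (the decay of `f τ'`) gives `ε`, `U₂`, `m₂`; `early` with `ε`, `τ`: `τ'`, `ε'`, `n₀`. `U = max U₁ U₂`, `m₁ = m₂`, `m₀' = min m₀ m₂`.
For `t < τ'`: `early`. For `t ≥ τ'` (so `τ' < T`... `t < T`): the shifted solution `f(τ' + ·)` on `[0, T-τ')` (`boltz_shift`, H48/PI/Shift) starts at `f τ'`, decay `U₁` (`early` at `t = τ'`), `|f τ' - F₀| ≤ ε`; apply `Nb` at the time `t - τ'` (`τ' + (t - τ') = t`).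
-/

set_option autoImplicit false

open MeasureTheory Set Filter Topology Pool.Agent.H25.Kin Pool.Agent.H48.PL Pool.Agent.H48.PD
open Pool.Agent.H82.BK Pool.Agent.H82.CM Pool.Agent.H48.PR Pool.Agent.H82.HF
open Pool.Agent.H82.HW (HRy FamY)

namespace Pool.Agent.H85.HW

variable {d : ℕ} {h : Vec d → Vec d → Vec d → ℝ}

/-- all solutions which start close to `F₀` obey bounds -/
def Nb (γ : ℝ) (b : ℝ → ℝ) (F₀ : Vec d → Vec d → ℝ) : Prop :=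
  ∀ B : ℕ → ℝ, ∃ ε > 0, ∃ U : ℕ → ℝ, ∃ m > 0,
    ∀ (T : ℝ) (f : ℝ → Vec d → Vec d → ℝ), IsBoltzmannSol γ b T f →
    (∀ (M : ℕ) (x v : Vec d), (1 + ‖v‖) ^ M * f 0 x v ≤ B M) → (∀ x v, |f 0 x v - F₀ x v| ≤ ε) →
    ∀ t ∈ Ico 0 T, ∀ x, (∀ (M : ℕ) (v : Vec d), (1 + ‖v‖) ^ M * f t x v ≤ U M) ∧
      m ≤ ∫ v, f t x v


theorem late {s γ : ℝ} (hd : 2 ≤ d) (hs : 0 < s) (h0 : 0 ≤ γ) (hs1 : 2 * s < 1)
    (h2 : γ + 2 * s ≤ 2) {b : ℝ → ℝ} (hb : IsKernel d s b) (hh : Sch2 h)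
    (hn : ∀ x y v, 0 ≤ h x y v) (hv : ∀ x y, 0 < ∫ v, h x y v) (hN : Nb γ b (avX h)) (B : ℕ → ℝ) :
    ∃ U : ℕ → ℝ, ∃ m₁ > 0, ∀ τ > 0, ∃ ε' > 0, ∃ n₀ : ℕ, ∀ N ≥ n₀, ∃ m₀ > 0,
      ∀ (T : ℝ) (f : ℝ → Vec d → Vec d → ℝ), IsBoltzmannSol γ b T f →
      (∀ (M : ℕ) (x v : Vec d), (1 + ‖v‖) ^ M * f 0 x v ≤ B M) →
      (∀ x v, |f 0 x v - h x ((N : ℝ) • x) v| ≤ ε') →
      ∀ t ∈ Ico 0 T, ∀ x, (∀ (M : ℕ) (v : Vec d), (1 + ‖v‖) ^ M * f t x v ≤ U M) ∧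
        m₀ ≤ ∫ v, f t x v ∧ (τ ≤ t → m₁ ≤ ∫ v, f t x v) := by
  obtain ⟨U₁, hE⟩ := early hd hs h0 hs1 h2 hb hh hn hv B
  obtain ⟨ε, hε, U₂, m₂, hm₂, hNb⟩ := hN U₁
  refine ⟨fun M => max (U₁ M) (U₂ M), m₂, hm₂, fun τ hτ => ?_⟩
  obtain ⟨τ', hτ', ε', hε', n₀, hE2⟩ := hE ε hε τ hτ
  refine ⟨ε', hε', n₀, fun N hNn => ?_⟩
  obtain ⟨m₀, hm₀, hE3⟩ := hE2 N hNn
  refine ⟨min m₀ m₂, lt_min hm₀ hm₂, fun T f hf hB hcl t ht x => ?_⟩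
  obtain ⟨hE4, hE5⟩ := hE3 T f hf hB hcl
  rcases lt_or_ge t τ' with hlt | hge
  · obtain ⟨h3, h4⟩ := hE4 t ht hlt.le x
    refine ⟨fun M v => (h3 M v).trans (le_max_left _ _), (min_le_left _ _).trans h4, fun h5 => ?_⟩
    exact absurd (h5.trans_lt hlt) (not_lt.2 hτ'.2)
  · have hT : τ' < T := hge.trans_lt ht.2
    have hsol := Pool.Agent.H48.PI.boltz_shift hf hτ'.1.le
    have hr : t - τ' ∈ Ico 0 (T - τ') := ⟨by linarith, by linarith [ht.2]⟩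
    have h6 := hNb (T - τ') (fun t => f (τ' + t)) hsol (fun M x v => by
      show (1 + ‖v‖) ^ M * f (τ' + 0) x v ≤ U₁ M
      rw [add_zero]
      exact (hE4 τ' ⟨hτ'.1.le, hT⟩ le_rfl x).1 M v) (fun x v => by
      show |f (τ' + 0) x v - avX h x v| ≤ ε
      rw [add_zero]
      exact hE5 hT x v) (t - τ') hr x
    simp only [add_sub_cancel] at h6
    exact ⟨fun M v => (h6.1 M v).trans (le_max_right _ _), (min_le_right _ _).trans h6.2,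
      fun _ => h6.2⟩

end Pool.Agent.H85.HW
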