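import Pool.Agent.H82.HW.Defs
import Pool.Agent.H82.HF.FouD

/-!
# THEOREM W (MP_c15324_an): data `h(x, N x, v)` which oscillate rapidly. Definitions of the Fourier block and of the assembly

`h(x,y,v) ≥ 0` smooth, periodic in `x` and `y`, all derivatives of rapid decay in `v`, `∫ h(x,y,v) dv > 0`; `avX h x v = ∫ h(x,y,v) dy`. A classical solution `f` with `f(0) ≈ h(x,Nx,v)`, `N` large, is after a short time close to `avX h` (layer lemma `layerW0`, H82/HW/LayW), and
solutions which start close to `avX h` obey the bounds if `avX h` is a plane datum (THEOREM G, `glob_plain`) or does not depend on `x` (`g_hom`).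
-/

set_option autoImplicit false

open MeasureTheory Set Filter Topology Pool.Agent.H25.Kin Pool.Agent.H48.PL Pool.Agent.H48.PD
open Pool.Agent.H82.BK Pool.Agent.H82.CM Pool.Agent.H48.PR Pool.Agent.H82.HF

namespace Pool.Agent.H85.HW

variable {d : ℕ}

/-- families of functions of the class `SchT`, uniformly -/
structure SchF {P : Type} (h : P → Vec d → Vec d → ℝ) : Prop where
  sch : ∀ p, SchT (h p)
  dec : ∀ N m : ℕ, ∃ C : ℝ, ∀ p x v,
    (1 + ‖v‖) ^ N * ‖iteratedFDeriv ℝ m (fun z : Vec d × Vec d => h p z.1 z.2) (x, v)‖ ≤ C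

/-- the Schwartz class of `𝕋^d × 𝕋^d × ℝ^d` -/
structure Sch2 (h : Vec d → Vec d → Vec d → ℝ) : Prop where
  smooth : ∀ n : ℕ, ContDiff ℝ n (fun p : Vec d × Vec d × Vec d => h p.1 p.2.1 p.2.2)
  perx : ∀ x y v i, h (x + Pi.single i 1) y v = h x y v
  pery : ∀ x y v i, h x (y + Pi.single i 1) v = h x y v
  dec : ∀ N m : ℕ, ∃ C : ℝ, ∀ x y v, (1 + ‖v‖) ^ N *
    ‖iteratedFDeriv ℝ m (fun p : Vec d × Vec d × Vec d => h p.1 p.2.1 p.2.2) (x, y, v)‖ ≤ C

end Pool.Agent.H85.HW
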