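import Pool.Agent.H85.HW.Defs
import Pool.Agent.H82.HF.FouI

/-!
# Module FouF: Fourier coefficients of families of Schwartz functions, uniform constants

Adaptation of `H82/HF/FouD.lean` and of `fou_dec` (`H82/HF/FouI.lean`): the same proofs, the constants are chosen from `SchF.dec` before the index `p`. Copy the private lemmas `FouD_le`, `FouD_int`, `FouD_mul`, `FouD_hr` (for `SchT (h p)` they can be used after copying as they are).
* `schF_bd`: `dec N 0`. `schF_hr`: proof of `sch_hr`. `schF_di`: `sch := sch_di`, `dec`: proof of `sch_di` (last part; `Di i (h p) = E ∘ fderiv`).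
* `coF_le`, `coF_hr`: proofs of `co_le`, `co_hr`.
* `fouF_dec`: induction on `m` for all families at the same time, proof of `fou_dec`; `ibp_a`, `ibp_b` are used for `h p`.
-/

set_option autoImplicit false

open MeasureTheory Set Filter Topology Pool.Agent.H25.Kin Pool.Agent.H48.PL Pool.Agent.H48.PD
open Pool.Agent.H82.BK Pool.Agent.H82.CM Pool.Agent.H48.PR Pool.Agent.H82.HF
open Pool.Agent.H82.HW (HRy FamY)

namespace Pool.Agent.H85.HW

variable {d : ℕ} {P : Type} {h : P → Vec d → Vec d → ℝ}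

/-- pointwise decay from a weighted bound -/
private theorem FouF_le {q : ℕ} {v : Vec d} {a c : ℝ} (ha : 0 ≤ a)
    (h : (1 + ‖v‖) ^ (2 * q) * a ≤ c) : a ≤ ((d : ℝ) + 1) ^ q * c * Wp q v := by
  have hn := norm_nonneg v
  have h2 : 1 + nsq v ≤ ((d : ℝ) + 1) * (1 + ‖v‖) ^ 2 := by
    have h3 := sq_le v
    have h4 : (0 : ℝ) ≤ d := Nat.cast_nonneg _
    nlinarith [mul_nonneg h4 hn]
  have h5 : (1 + nsq v) ^ q ≤ ((d : ℝ) + 1) ^ q * (1 + ‖v‖) ^ (2 * q) := by
    rw [pow_mul, ← mul_pow]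
    exact pow_le_pow_left₀ (by have := sq_nonneg' v; linarith) h2 q
  have h6 : 0 < (1 + nsq v) ^ q := by
    have := sq_nonneg' v
    positivity
  rw [Wp, ← div_eq_mul_inv, le_div_iff₀ h6]
  calc a * (1 + nsq v) ^ q ≤ a * (((d : ℝ) + 1) ^ q * (1 + ‖v‖) ^ (2 * q)) :=
        mul_le_mul_of_nonneg_left h5 ha
    _ = ((d : ℝ) + 1) ^ q * ((1 + ‖v‖) ^ (2 * q) * a) := by ring
    _ ≤ ((d : ℝ) + 1) ^ q * c := mul_le_mul_of_nonneg_left h (by positivity)

private theorem FouF_vol : (volume : Measure (Vec d)).real (Icc (0 : Vec d) 1) = 1 := by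
  have h : (volume (Icc (0 : Vec d) 1)).toReal = ∏ i : Fin d, ((1 : Vec d) i - (0 : Vec d) i) :=
    Real.volume_Icc_pi_toReal zero_le_one
  rw [Measure.real, h]
  simp

private theorem FouF_fin : (volume : Measure (Vec d)) (Icc (0 : Vec d) 1) < ⊤ :=
  isCompact_Icc.measure_lt_top

/-- integrals over the cube of bounded functions -/
private theorem FouF_int {f : Vec d → ℝ} {C : ℝ} (h : ∀ x, |f x| ≤ C) :
    |∫ x in Icc (0 : Vec d) 1, f x| ≤ C := by
  have h1 := norm_setIntegral_le_of_norm_le_const (μ := (volume : Measure (Vec d)))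
    (s := Icc (0 : Vec d) 1) (f := f) (C := C) FouF_fin fun x _ => by
      rw [Real.norm_eq_abs]
      exact h x
  rw [FouF_vol, mul_one, Real.norm_eq_abs] at h1
  exact h1

theorem schF_bd (hh : SchF h) (N : ℕ) :
    ∃ C : ℝ, 0 ≤ C ∧ ∀ p x v, (1 + ‖v‖) ^ N * |h p x v| ≤ C := by
  obtain ⟨C, hC⟩ := hh.dec N 0
  refine ⟨|C|, abs_nonneg C, fun p x v => ?_⟩
  have h1 := hC p x v
  rw [norm_iteratedFDeriv_zero, Real.norm_eq_abs] at h1
  exact h1.trans (le_abs_self C)

theorem schF_hr (hh : SchF h) (q : ℕ) : ∃ M : ℝ, 0 ≤ M ∧ ∀ p x, HR 1 q M (h p x) := by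
  obtain ⟨C0, hC0, h0⟩ := schF_bd hh (2 * q)
  obtain ⟨C1', h1'⟩ := hh.dec (2 * q) 1
  set C1 : ℝ := |C1'| with hC1d
  have hC1 : 0 ≤ C1 := abs_nonneg _
  have h1 : ∀ b x v, (1 + ‖v‖) ^ (2 * q) *
      ‖fderiv ℝ (fun p : Vec d × Vec d => h b p.1 p.2) (x, v)‖ ≤ C1 := by
    intro b x v
    have := h1' b x v
    rw [norm_iteratedFDeriv_one] at this
    exact this.trans (le_abs_self _)
  have hd0 : (0 : ℝ) ≤ ((d : ℝ) + 1) ^ q := by positivity
  have hM1 : 0 ≤ ((d : ℝ) + 1) ^ q * C0 := mul_nonneg hd0 hC0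
  have hM2 : 0 ≤ ((d : ℝ) + 1) ^ q * (2 ^ (2 * q) * C1) := by positivity
  have hle : ∀ b x v, |h b x v| ≤ ((d : ℝ) + 1) ^ q * C0 * Wp q v := fun b x v =>
    FouF_le (abs_nonneg _) (h0 b x v)
  refine ⟨((d : ℝ) + 1) ^ q * C0 + ((d : ℝ) + 1) ^ q * (2 ^ (2 * q) * C1),
    add_nonneg hM1 hM2, fun b x => ⟨add_nonneg hM1 hM2, fun v => ?_, fun v w => ?_⟩⟩
  · exact (hle b x v).trans (mul_le_mul_of_nonneg_right (by linarith) (Wp_pos q v).le)
  · rw [Real.rpow_one]
    have hW1 := Wp_pos q v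
    have hW2 := Wp_pos q (v + w)
    rcases le_or_gt (len w) 1 with hw | hw
    · rw [min_eq_right hw]
      have hwn : ‖w‖ ≤ len w := norm_le_len w
      have hl0 := len_nonneg w
      -- the derivative on the segment
      have hder : ∀ τ ∈ Icc (0 : ℝ) 1, HasDerivWithinAt (fun τ : ℝ => h b x (v + τ • w))
          (fderiv ℝ (fun p : Vec d × Vec d => h b p.1 p.2) (x, v + τ • w) ((0 : Vec d), w))
          (Icc (0 : ℝ) 1) τ := by
        intro τ _
        have hF : HasFDerivAt (fun p : Vec d × Vec d => h b p.1 p.2)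
            (fderiv ℝ (fun p : Vec d × Vec d => h b p.1 p.2) (x, v + τ • w)) (x, v + τ • w) :=
          ((((hh.sch b).smooth 1).differentiable (by simp)) _).hasFDerivAt
        have hg : HasDerivAt (fun τ : ℝ => (x, v + τ • w)) ((0 : Vec d), w) τ := by
          refine (hasDerivAt_const τ x).prodMk ?_
          have := ((hasDerivAt_id τ).smul_const w).const_add v
          simpa using this
        exact (hF.comp_hasDerivAt τ hg).hasDerivWithinAt
      have hbd : ∀ τ ∈ Ico (0 : ℝ) 1,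
          ‖fderiv ℝ (fun p : Vec d × Vec d => h b p.1 p.2) (x, v + τ • w) ((0 : Vec d), w)‖ ≤
          ((d : ℝ) + 1) ^ q * (2 ^ (2 * q) * C1) * Wp q v * len w := by
        intro τ hτ
        have e1 := ContinuousLinearMap.le_opNorm
          (fderiv ℝ (fun p : Vec d × Vec d => h b p.1 p.2) (x, v + τ • w)) ((0 : Vec d), w)
        have e2 : ‖(((0 : Vec d), w) : Vec d × Vec d)‖ = ‖w‖ := by
          rw [Prod.norm_def, norm_zero]
          exact max_eq_right (norm_nonneg _)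
        rw [e2] at e1
        have e3 : 1 + ‖v‖ ≤ 2 * (1 + ‖v + τ • w‖) := by
          have e4 : ‖τ • w‖ ≤ 1 := by
            rw [norm_smul, Real.norm_eq_abs, abs_of_nonneg hτ.1]
            nlinarith [norm_nonneg w, hτ.1, hτ.2, hwn, hw]
          have e5 : ‖v‖ ≤ ‖v + τ • w‖ + ‖τ • w‖ := by
            have := norm_sub_le (v + τ • w) (τ • w)
            rwa [add_sub_cancel_right] at this
          have e6 := norm_nonneg (v + τ • w)
          linarith
        have e7 : (1 + ‖v‖) ^ (2 * q) *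
            ‖fderiv ℝ (fun p : Vec d × Vec d => h b p.1 p.2) (x, v + τ • w)‖ ≤
            2 ^ (2 * q) * C1 := by
          have e8 : (1 + ‖v‖) ^ (2 * q) ≤ (2 * (1 + ‖v + τ • w‖)) ^ (2 * q) :=
            pow_le_pow_left₀ (by positivity) e3 _
          calc (1 + ‖v‖) ^ (2 * q) *
              ‖fderiv ℝ (fun p : Vec d × Vec d => h b p.1 p.2) (x, v + τ • w)‖
              ≤ (2 * (1 + ‖v + τ • w‖)) ^ (2 * q) *
              ‖fderiv ℝ (fun p : Vec d × Vec d => h b p.1 p.2) (x, v + τ • w)‖ :=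
                mul_le_mul_of_nonneg_right e8 (norm_nonneg _)
            _ = 2 ^ (2 * q) * ((1 + ‖v + τ • w‖) ^ (2 * q) *
              ‖fderiv ℝ (fun p : Vec d × Vec d => h b p.1 p.2) (x, v + τ • w)‖) := by
                rw [mul_pow]; ring
            _ ≤ 2 ^ (2 * q) * C1 := mul_le_mul_of_nonneg_left (h1 b x _) (by positivity)
        have e9 := FouF_le (norm_nonneg _) e7
        refine e1.trans (mul_le_mul e9 hwn (norm_nonneg _) ?_)
        exact mul_nonneg hM2 hW1.le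
      have hmv := norm_image_sub_le_of_norm_deriv_le_segment_01' hder hbd
      rw [one_smul, zero_smul, add_zero, Real.norm_eq_abs] at hmv
      refine hmv.trans ?_
      have e1 : 0 ≤ ((d : ℝ) + 1) ^ q * (2 ^ (2 * q) * C1) * Wp q v * len w := by positivity
      calc ((d : ℝ) + 1) ^ q * (2 ^ (2 * q) * C1) * Wp q v * len w
          = ((d : ℝ) + 1) ^ q * (2 ^ (2 * q) * C1) * len w * Wp q v := by ring
        _ ≤ (((d : ℝ) + 1) ^ q * C0 + ((d : ℝ) + 1) ^ q * (2 ^ (2 * q) * C1)) * len w *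
            (Wp q v + Wp q (v + w)) := by
          refine mul_le_mul ?_ (by linarith) hW1.le ?_
          · exact mul_le_mul_of_nonneg_right (by linarith) hl0
          · exact mul_nonneg (add_nonneg hM1 hM2) hl0
    · rw [min_eq_left hw.le, mul_one]
      have e1 := hle b x v
      have e2 := hle b x (v + w)
      calc |h b x (v + w) - h b x v| ≤ |h b x (v + w)| + |h b x v| := abs_sub _ _
        _ ≤ ((d : ℝ) + 1) ^ q * C0 * Wp q (v + w) + ((d : ℝ) + 1) ^ q * C0 * Wp q v :=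
          add_le_add e2 e1
        _ = ((d : ℝ) + 1) ^ q * C0 * (Wp q v + Wp q (v + w)) := by ring
        _ ≤ _ := mul_le_mul_of_nonneg_right (by linarith) (by positivity)

theorem schF_di (hh : SchF h) (i : Fin d) : SchF (fun p => Di i (h p)) := by
  refine ⟨fun p => sch_di (hh.sch p) i, fun N m => ?_⟩
  set E : ((Vec d × Vec d) →L[ℝ] ℝ) →L[ℝ] ℝ :=
    ContinuousLinearMap.apply ℝ ℝ ((Pi.single i 1, 0) : Vec d × Vec d) with hE
  obtain ⟨C, hC⟩ := hh.dec N (m + 1)
  refine ⟨‖E‖ * |C|, fun b x v => ?_⟩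
  have hG : (fun p : Vec d × Vec d => Di i (h b) p.1 p.2) =
      E ∘ fderiv ℝ (fun p : Vec d × Vec d => h b p.1 p.2) := by
    funext p
    rfl
  have hs : ∀ n : ℕ, ContDiff ℝ n (fderiv ℝ (fun p : Vec d × Vec d => h b p.1 p.2)) := by
    intro n
    refine ((hh.sch b).smooth (n + 1)).fderiv_right ?_
    push_cast
    exact le_rfl
  have h1 : ‖iteratedFDeriv ℝ m (fun p : Vec d × Vec d => Di i (h b) p.1 p.2) (x, v)‖ ≤
      ‖E‖ * ‖iteratedFDeriv ℝ (m + 1) (fun p : Vec d × Vec d => h b p.1 p.2) (x, v)‖ := by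
    rw [hG, ← norm_iteratedFDeriv_fderiv]
    exact E.norm_iteratedFDeriv_comp_left (hs m).contDiffAt le_rfl
  calc (1 + ‖v‖) ^ N * ‖iteratedFDeriv ℝ m (fun p : Vec d × Vec d => Di i (h b) p.1 p.2) (x, v)‖
      ≤ (1 + ‖v‖) ^ N * (‖E‖ *
        ‖iteratedFDeriv ℝ (m + 1) (fun p : Vec d × Vec d => h b p.1 p.2) (x, v)‖) :=
        mul_le_mul_of_nonneg_left h1 (by positivity)
    _ = ‖E‖ * ((1 + ‖v‖) ^ N *
        ‖iteratedFDeriv ℝ (m + 1) (fun p : Vec d × Vec d => h b p.1 p.2) (x, v)‖) := by ring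
    _ ≤ ‖E‖ * |C| :=
        mul_le_mul_of_nonneg_left ((hC b x v).trans (le_abs_self C)) E.opNorm_nonneg

private theorem FouF_mul {a b C : ℝ} (ha : |a| ≤ C) (hb : |b| ≤ 1) : |a * b| ≤ C := by
  rw [abs_mul]
  calc |a| * |b| ≤ |a| * 1 := mul_le_mul_of_nonneg_left hb (abs_nonneg _)
    _ = |a| := mul_one _
    _ ≤ C := ha

private theorem FouF_hr {h : Vec d → Vec d → ℝ} (hh : SchT h) {q : ℕ} {M : ℝ}
    (hM : ∀ x, HR 1 q M (h x)) {u : Vec d → ℝ} (hu : Continuous u) (hu1 : ∀ x, |u x| ≤ 1) :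
    HR 1 q M (fun v => ∫ x in Icc (0 : Vec d) 1, h x v * u x) := by
  refine ⟨(hM 0).nn, fun v => ?_, fun v w => ?_⟩
  · exact FouF_int fun x => FouF_mul ((hM x).le v) (hu1 x)
  · have hi : ∀ v : Vec d, IntegrableOn (fun x : Vec d => h x v * u x) (Icc (0 : Vec d) 1)
        volume := by
      intro v
      refine ContinuousOn.integrableOn_compact isCompact_Icc (Continuous.continuousOn ?_)
      exact ((sch_cont hh).comp (by fun_prop : Continuous fun x : Vec d => (x, v))).mul hu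
    change |(∫ x in Icc (0 : Vec d) 1, h x (v + w) * u x) -
      ∫ x in Icc (0 : Vec d) 1, h x v * u x| ≤ _
    rw [← integral_sub (hi (v + w)) (hi v)]
    refine FouF_int fun x => ?_
    rw [← sub_mul]
    exact FouF_mul ((hM x).hol v w) (hu1 x)

theorem coF_le (hh : SchF h) (N : ℕ) :
    ∃ C : ℝ, 0 ≤ C ∧ ∀ p k v, (1 + ‖v‖) ^ N * (|aC (h p) k v| + |bC (h p) k v|) ≤ C := by
  obtain ⟨C, hC, h0⟩ := schF_bd hh N
  refine ⟨C + C, add_nonneg hC hC, fun b k v => ?_⟩
  have hp : 0 < (1 + ‖v‖) ^ N := by positivity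
  have hb : ∀ x : Vec d, |h b x v| ≤ C / (1 + ‖v‖) ^ N := by
    intro x
    rw [le_div_iff₀ hp, mul_comm]
    exact h0 b x v
  have h1 : |aC (h b) k v| ≤ C / (1 + ‖v‖) ^ N := by
    refine FouF_int fun x => ?_
    exact FouF_mul (hb x) (Real.abs_cos_le_one _)
  have h2 : |bC (h b) k v| ≤ C / (1 + ‖v‖) ^ N := by
    refine FouF_int fun x => ?_
    exact FouF_mul (hb x) (Real.abs_sin_le_one _)
  calc (1 + ‖v‖) ^ N * (|aC (h b) k v| + |bC (h b) k v|)
      ≤ (1 + ‖v‖) ^ N * (C / (1 + ‖v‖) ^ N + C / (1 + ‖v‖) ^ N) :=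
        mul_le_mul_of_nonneg_left (add_le_add h1 h2) hp.le
    _ = C + C := by field_simp

theorem coF_hr (hh : SchF h) (q : ℕ) :
    ∃ M : ℝ, 0 ≤ M ∧ ∀ p k, HR 1 q M (aC (h p) k) ∧ HR 1 q M (bC (h p) k) := by
  obtain ⟨M, hM0, hM⟩ := schF_hr hh q
  refine ⟨M, hM0, fun b k => ?_⟩
  have hc : Continuous fun x : Vec d => 2 * Real.pi * dot (kv k) x :=
    continuous_const.mul (by unfold dot; fun_prop)
  exact ⟨FouF_hr (hh.sch b) (hM b) (Real.continuous_cos.comp hc) fun x => Real.abs_cos_le_one _,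
    FouF_hr (hh.sch b) (hM b) (Real.continuous_sin.comp hc) fun x => Real.abs_sin_le_one _⟩

theorem fouF_dec (hh : SchF h) (m N : ℕ) : ∃ C : ℝ, 0 ≤ C ∧ ∀ p k v,
    ‖kv k‖ ^ m * ((1 + ‖v‖) ^ N * (|aC (h p) k v| + |bC (h p) k v|)) ≤ C := by
  induction m generalizing h with
  | zero =>
    obtain ⟨C, hC0, hC⟩ := coF_le hh N
    refine ⟨C, hC0, fun b k v => ?_⟩
    rw [pow_zero, one_mul]
    exact hC b k v
  | succ m ih =>
    choose C hC0 hC using fun i : Fin d => ih (schF_di hh i)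
    refine ⟨∑ i, C i, Finset.sum_nonneg fun i _ => hC0 i, fun b k v => ?_⟩
    rcases eq_or_ne (kv k) 0 with h0 | h0
    · rw [h0, norm_zero, zero_pow (Nat.succ_ne_zero m), zero_mul]
      exact Finset.sum_nonneg fun i _ => hC0 i
    · have hpos : 0 < ‖kv k‖ := norm_pos_iff.2 h0
      obtain ⟨i, hi⟩ : ∃ i, ‖kv k i‖ = ‖kv k‖ := by
        by_contra hcon
        push Not at hcon
        have h1 : ‖kv k‖ < ‖kv k‖ := (pi_norm_lt_iff hpos).2 fun i =>
          lt_of_le_of_ne (norm_le_pi_norm _ i) (hcon i)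
        exact lt_irrefl _ h1
      have hki : ‖kv k‖ = |(k i : ℝ)| := by
        rw [← hi, Real.norm_eq_abs]
        rfl
      have ea : ‖kv k‖ * |bC (h b) k v| ≤ |aC (Di i (h b)) k v| := by
        rw [ibp_a (hh.sch b) i k v, abs_mul, abs_mul, hki, abs_of_pos Real.two_pi_pos]
        have h2 : 1 ≤ 2 * Real.pi := by
          have := Real.pi_gt_three
          linarith
        have h3 : 0 ≤ |(k i : ℝ)| * |bC (h b) k v| := by positivity
        nlinarith
      have eb : ‖kv k‖ * |aC (h b) k v| ≤ |bC (Di i (h b)) k v| := by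
        rw [ibp_b (hh.sch b) i k v, abs_neg, abs_mul, abs_mul, hki, abs_of_pos Real.two_pi_pos]
        have h2 : 1 ≤ 2 * Real.pi := by
          have := Real.pi_gt_three
          linarith
        have h3 : 0 ≤ |(k i : ℝ)| * |aC (h b) k v| := by positivity
        nlinarith
      have h4 : ‖kv k‖ ^ (m + 1) * ((1 + ‖v‖) ^ N * (|aC (h b) k v| + |bC (h b) k v|)) =
          ‖kv k‖ ^ m * ((1 + ‖v‖) ^ N * (‖kv k‖ * |aC (h b) k v| + ‖kv k‖ * |bC (h b) k v|)) := by
        ring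
      rw [h4]
      have h5 : ‖kv k‖ ^ m * ((1 + ‖v‖) ^ N * (‖kv k‖ * |aC (h b) k v| + ‖kv k‖ * |bC (h b) k v|)) ≤
          ‖kv k‖ ^ m * ((1 + ‖v‖) ^ N * (|aC (Di i (h b)) k v| + |bC (Di i (h b)) k v|)) := by
        refine mul_le_mul_of_nonneg_left (mul_le_mul_of_nonneg_left ?_ (by positivity))
          (by positivity)
        linarith
      exact (h5.trans (hC i b k v)).trans
        (Finset.single_le_sum (f := C) (fun i _ => hC0 i) (Finset.mem_univ i))

end Pool.Agent.H85.HW
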