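import Pool.Agent.H85.HW.EarlyX
import Pool.Agent.H85.HW.GUnif
import Pool.Agent.H15.NE0.FinG0
import Pool.Agent.H48.PI.HydU

/-!
# Module LateG: oscillating data whose average is a plane datum

`F₀ = avX h`: `PlaneData s ν F₀` (`hP`; `avX_pos`; `avX_hol` with `α = 1`), `Slice F₀` (`avX_slice`). `glob_plain0` (H15/NE0/FinG0) gives `a, k, u` and the moments; for `η` use it with `η/4`: `Ts'`. `early` gives `U₁ B` for every `B` (`choose`); `B' B M = max (U₁ B M) (C M)`, `C M` a bound of `(1+‖v‖)^M F₀` (`Slice.decay`). `Ts B = max (Ts' (B' B)) 0 + 1`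
(for `γ > 0` it does not depend on `B`). Given `B, T₁, g, T₀ < T₁, τ`:
* `glob_plain0` with `B' B`, `T₀`: `ε₂, m₂, M₂, U₂`.
* `T₂ < T₁`: `max T₀ (Ts B)` if `Ts B < T₁`, else `T₀`. `g_unif` on `[0,T₂]` with `η/2`: `δ`.
* `early` with `ε₂` and `min (min τ δ) 1`: `τ'`, `ε'`, `n₀`. `U = max U₁ U₂`, `m₁ = m₂`; `M₀` from `hydro_of_U d U` (see the use in `glob_plain0`), applied to `f` on `[0,T)` with the bounds `U`. For `N`: `m₀' = min m₀ m₂`.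
* `f` a solution. For `t < τ'` all from `early` (`τ ≤ t` and `Ts B ≤ t` are impossible). For `t ≥ τ'`: `fs = f(τ'+·)` on `[0,T-τ')` (`boltz_shift`, H48/PI/Shift), `(T - τ' ≤ T₀ ∨ Ts' (B' B) < T₁)`, decay `U₁ ≤ B'` of `f τ'` and `|f τ' - F₀| ≤ ε₂` (`early`): `glob_plain0` at the time `r = t - τ'`.
  Mass `≥ m₂`. `Ts B ≤ t`: `r ≥ Ts'`, so `|f t - W| ≤ η/4 ≤ η`. Closeness to `g` for `τ ≤ t < T₁`: `|f t - g r| ≤ η/4` (`r < T₁`). If `T ≤ T₀` then `r, t ∈ [0,T₀]`, `|g r - g t| ≤ η/2`. Otherwise `Ts B < T₁`: if `t ≤ Ts B` the same on `[0,Ts B]`; if `t > Ts B` then `r, t ≥ Ts'`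
  and `glob_plain0` applied to the solution `g` itself (`f := g`, `T := T₁`, decay of `g 0 = F₀` by `C ≤ B'`, `|g 0 - F₀| = 0 ≤ ε₂`, right alternative `Ts' (B' B) < T₁`) gives `|g r - W|, |g t - W| ≤ η/4`.
-/

set_option autoImplicit false

open MeasureTheory Set Filter Topology Pool.Agent.H25.Kin Pool.Agent.H48.PL Pool.Agent.H48.PD
open Pool.Agent.H82.BK Pool.Agent.H82.CM Pool.Agent.H48.PR Pool.Agent.H82.HF

namespace Pool.Agent.H85.HW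

open Pool.Agent.H25.PN Pool.Agent.H48.CV Pool.Agent.H93.CM

variable {d : ℕ} {h : Vec d → Vec d → Vec d → ℝ}

theorem w_glob {s γ : ℝ} (hd : 2 ≤ d) (hs : 0 < s) (h0 : 0 ≤ γ) (hs1 : 2 * s < 1)
    (h2 : γ + 2 * s < 2) {b : ℝ → ℝ} (hb : IsKernel d s b) {ν : Vec d} (hν : ν ≠ 0) (hh : Sch2 h)
    (hn : ∀ x y v, 0 ≤ h x y v) (hv : ∀ x y, 0 < ∫ v, h x y v)
    (hP : ∀ x x' v, dot ν x = dot ν x' → avX h x v = avX h x' v)
    (hU : Pool.Agent.H48.CV.UB d γ b (PlaneSym ν) (avX h)) :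
    ∃ (a k : ℝ) (u : Vec d), 0 < a ∧ 0 < k ∧
      (∫ x in Icc (0 : Vec d) 1, ∫ v, avX h x v = ∫ v, a * Real.exp (-(k * nsq (v - u)))) ∧
      (∀ i, ∫ x in Icc (0 : Vec d) 1, ∫ v, avX h x v * v i =
        ∫ v, a * Real.exp (-(k * nsq (v - u))) * v i) ∧
      (∫ x in Icc (0 : Vec d) 1, ∫ v, avX h x v * nsq v =
        ∫ v, a * Real.exp (-(k * nsq (v - u))) * nsq v) ∧
      ∀ η > 0, ∃ Ts : (ℕ → ℝ) → ℝ, (0 < γ → ∀ B B' : ℕ → ℝ, Ts B = Ts B') ∧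
        ∀ (B : ℕ → ℝ) (T₁ : ℝ) (g : ℝ → Vec d → Vec d → ℝ), IsBoltzmannSol γ b T₁ g →
        g 0 = avX h → ∀ T₀ < T₁, ∀ τ > 0, ∃ ε > 0, ∃ n₀ : ℕ, ∃ m₁ > 0,
        ∃ (M₀ : ℝ) (U : ℕ → ℝ), ∀ N ≥ n₀, ∃ m₀ > 0,
        ∀ (T : ℝ) (f : ℝ → Vec d → Vec d → ℝ), (T ≤ T₀ ∨ Ts B < T₁) → IsBoltzmannSol γ b T f →
          (∀ (M : ℕ) (x v : Vec d), (1 + ‖v‖) ^ M * f 0 x v ≤ B M) →
          (∀ x v, |f 0 x v - h x ((N : ℝ) • x) v| ≤ ε) →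
          ∀ t ∈ Ico 0 T, ∀ x, HydroBounds m₀ M₀ M₀ M₀ (f t x) ∧
            (∀ (M : ℕ) (v : Vec d), (1 + ‖v‖) ^ M * f t x v ≤ U M) ∧
            (τ ≤ t → m₁ ≤ ∫ v, f t x v) ∧
            (τ ≤ t → t < T₁ → ∀ v, |f t x v - g t x v| ≤ η) ∧
            (Ts B ≤ t → ∀ v, |f t x v - a * Real.exp (-(k * nsq (v - u)))| ≤ η) := by
  have hPD : PlaneData s ν (avX h) :=
    ⟨hP, avX_pos hh hn hv, 1, hs1, le_rfl, avX_hol hh⟩
  have hS := avX_slice hh hn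
  obtain ⟨a, k, u, ha, hk, hm, hmo, he, -, hG⟩ :=
    Pool.Agent.H15.NE0.glob_plain0 hd hs h0 hs1 h2 hb hν hPD hS hU
  refine ⟨a, k, u, ha, hk, hm, hmo, he, fun η hη => ?_⟩
  obtain ⟨Ts', hTs0, hG'⟩ := hG (η / 4) (by positivity)
  have hE := fun B : ℕ → ℝ => early hd hs h0 hs1 h2.le hb hh hn hv B
  choose U₁ hU₁ using hE
  choose C hC using hS.decay
  obtain ⟨B', hB'⟩ : ∃ B' : (ℕ → ℝ) → ℕ → ℝ, ∀ B M, U₁ B M ≤ B' B M ∧ C M ≤ B' B M :=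
    ⟨fun B M => max (U₁ B M) (C M), fun B M => ⟨le_max_left _ _, le_max_right _ _⟩⟩
  refine ⟨fun B => max (Ts' (B' B)) 0 + 1, fun hγ B B'' => ?_, ?_⟩
  · show max (Ts' (B' B)) 0 + 1 = max (Ts' (B' B'')) 0 + 1
    rw [hTs0 hγ (B' B) (B' B'')]
  intro B T₁ g hg hg0 T₀ hT₀ τ hτ
  obtain ⟨Ts, hTs⟩ : ∃ Ts : ℝ, Ts = max (Ts' (B' B)) 0 + 1 := ⟨_, rfl⟩
  have hTs1 : Ts' (B' B) + 1 ≤ Ts := by
    rw [hTs]
    linarith [le_max_left (Ts' (B' B)) 0]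
  have hTs2 : 1 ≤ Ts := by
    rw [hTs]
    linarith [le_max_right (Ts' (B' B)) 0]
  show ∃ ε > 0, ∃ n₀ : ℕ, ∃ m₁ > 0, ∃ (M₀ : ℝ) (U : ℕ → ℝ), ∀ N ≥ n₀, ∃ m₀ > 0,
        ∀ (T : ℝ) (f : ℝ → Vec d → Vec d → ℝ), (T ≤ T₀ ∨ max (Ts' (B' B)) 0 + 1 < T₁) →
          IsBoltzmannSol γ b T f →
          (∀ (M : ℕ) (x v : Vec d), (1 + ‖v‖) ^ M * f 0 x v ≤ B M) →
          (∀ x v, |f 0 x v - h x ((N : ℝ) • x) v| ≤ ε) →
          ∀ t ∈ Ico 0 T, ∀ x, HydroBounds m₀ M₀ M₀ M₀ (f t x) ∧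
            (∀ (M : ℕ) (v : Vec d), (1 + ‖v‖) ^ M * f t x v ≤ U M) ∧
            (τ ≤ t → m₁ ≤ ∫ v, f t x v) ∧
            (τ ≤ t → t < T₁ → ∀ v, |f t x v - g t x v| ≤ η) ∧
            (max (Ts' (B' B)) 0 + 1 ≤ t → ∀ v,
              |f t x v - a * Real.exp (-(k * nsq (v - u)))| ≤ η)
  rw [← hTs]
  obtain ⟨ε₂, hε₂, m₂, hm₂, M₂, U₂, hG2⟩ := hG' (B' B) T₁ g hg hg0 T₀ hT₀
  obtain ⟨T₂, hT₂, hT₂0, hT₂s⟩ : ∃ T₂ < T₁, T₀ ≤ T₂ ∧ (Ts < T₁ → Ts ≤ T₂) := by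
    by_cases hc : Ts < T₁
    · exact ⟨max T₀ Ts, max_lt hT₀ hc, le_max_left _ _, fun _ => le_max_right _ _⟩
    · exact ⟨T₀, hT₀, le_rfl, fun hc' => absurd hc' hc⟩
  obtain ⟨δ, hδ, hgu⟩ := g_unif hg hT₂ (half_pos hη)
  obtain ⟨τ', hτ', ε', hε', n₀, hN⟩ :=
    hU₁ B ε₂ hε₂ (min (min τ δ) 1) (lt_min (lt_min hτ hδ) one_pos)
  have hτ0 : 0 < τ' := hτ'.1
  have hττ : τ' ≤ τ := hτ'.2.trans ((min_le_left _ _).trans (min_le_left _ _))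
  have hτδ : τ' ≤ δ := hτ'.2.trans ((min_le_left _ _).trans (min_le_right _ _))
  have hτ1 : τ' ≤ 1 := hτ'.2.trans (min_le_right _ _)
  obtain ⟨M₀, hM₀⟩ := Pool.Agent.H48.PI.hydro_of_U d fun M => max (U₁ B M) (U₂ M)
  refine ⟨ε', hε', n₀, m₂, hm₂, M₀, fun M => max (U₁ B M) (U₂ M), fun N hNn => ?_⟩
  obtain ⟨m₀, hm₀, hf1⟩ := hN N hNn
  refine ⟨min m₀ m₂, lt_min hm₀ hm₂, fun T f hTT hf hfB hfε => ?_⟩
  obtain ⟨hearly, hclose⟩ := hf1 T f hf hfB hfε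
  have hlate : ∀ t ∈ Ico 0 T, τ' ≤ t → ∀ x, HydroBounds m₂ M₂ M₂ M₂ (f t x) ∧
      (∀ (M : ℕ) (v : Vec d), (1 + ‖v‖) ^ M * f t x v ≤ U₂ M) ∧
      (t - τ' < T₁ → ∀ v, |f t x v - g (t - τ') x v| ≤ η / 4) ∧
      (Ts' (B' B) ≤ t - τ' → ∀ v, |f t x v - a * Real.exp (-(k * nsq (v - u)))| ≤ η / 4) := by
    intro t ht htτ x
    have hτT : τ' < T := lt_of_le_of_lt htτ ht.2
    have hfs := Pool.Agent.H48.PI.boltz_shift hf hτ0.le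
    have hkey := hG2 (T - τ') (fun t => f (τ' + t)) ?_ hfs ?_ ?_ (t - τ')
      ⟨by linarith, by linarith [ht.2]⟩ x
    · have e : τ' + (t - τ') = t := by ring
      simp only [e] at hkey
      exact hkey
    · rcases hTT with hc | hc
      · left
        linarith
      · right
        linarith
    · intro M y v
      show (1 + ‖v‖) ^ M * f (τ' + 0) y v ≤ B' B M
      rw [add_zero]
      exact ((hearly τ' ⟨hτ0.le, hτT⟩ le_rfl y).1 M v).trans (hB' B M).1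
    · intro y v
      show |f (τ' + 0) y v - avX h y v| ≤ ε₂
      rw [add_zero]
      exact hclose hτT y v
  have hgW : Ts < T₁ → ∀ r ∈ Ico 0 T₁, Ts' (B' B) ≤ r → ∀ x v,
      |g r x v - a * Real.exp (-(k * nsq (v - u)))| ≤ η / 4 := by
    intro hc r hr hrT x v
    refine (hG2 T₁ g (Or.inr (by linarith)) hg ?_ ?_ r hr x).2.2.2 hrT v
    · intro M y w
      rw [hg0]
      exact (hC M y w).trans (hB' B M).2
    · intro y w
      rw [hg0, sub_self, abs_zero]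
      exact hε₂.le
  have hUall : ∀ M : ℕ, ∀ t ∈ Ico 0 T, ∀ x v,
      (1 + ‖v‖) ^ M * f t x v ≤ max (U₁ B M) (U₂ M) := by
    intro M t ht x v
    rcases le_total t τ' with hc | hc
    · exact ((hearly t ht hc x).1 M v).trans (le_max_left _ _)
    · exact ((hlate t ht hc x).2.1 M v).trans (le_max_right _ _)
  intro t ht x
  obtain ⟨y1, y2, y3⟩ := hM₀ T _ f hf hUall t ht x
  refine ⟨⟨?_, y1, y2, y3⟩, fun M v => hUall M t ht x v, fun hc => ?_, fun hc htT v => ?_,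
    fun hc v => ?_⟩
  · rcases le_total t τ' with hc | hc
    · exact (min_le_left _ _).trans (hearly t ht hc x).2
    · exact (min_le_right _ _).trans (hlate t ht hc x).1.1
  · exact (hlate t ht (hττ.trans hc) x).1.1
  · have htτ : τ' ≤ t := hττ.trans hc
    have h3 : |f t x v - g (t - τ') x v| ≤ η / 4 := (hlate t ht htτ x).2.2.1 (by linarith) v
    have h4 : |g (t - τ') x v - g t x v| ≤ η / 2 := by
      by_cases hc2 : t ≤ T₂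
      · refine hgu (t - τ') ⟨by linarith, by linarith⟩ t ⟨ht.1, hc2⟩ ?_ x v
        rw [show t - τ' - t = -τ' by ring, abs_neg, abs_of_pos hτ0]
        exact hτδ
      · have hc3 : T₂ < t := not_le.1 hc2
        have hc4 : Ts < T₁ := hTT.resolve_left fun hc5 => by linarith [ht.2]
        have hc6 : Ts ≤ T₂ := hT₂s hc4
        have h5 := hgW hc4 (t - τ') ⟨by linarith, by linarith⟩ (by linarith) x v
        have h6 := hgW hc4 t ⟨ht.1, htT⟩ (by linarith) x v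
        rw [abs_le] at h5 h6 ⊢
        constructor <;> linarith [h5.1, h5.2, h6.1, h6.2]
    rw [abs_le] at h3 h4 ⊢
    constructor <;> linarith [h3.1, h3.2, h4.1, h4.2]
  · have hc1 : τ' ≤ t := hτ1.trans (hTs2.trans hc)
    exact ((hlate t ht hc1 x).2.2.2 (by linarith) v).trans (by linarith)

end Pool.Agent.H85.HW
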