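import Pool.Agent.H85.HW.LateX
import Pool.Agent.H37.GH.Fin
import Pool.Agent.H48.PI.HydU

/-!
# Module LateH: oscillating data with a space homogeneous average

`avX h x = F` for all `x` (`F = avX h 0`). `g_hom` (H37/GH/Fin) with `F` gives `Nb γ b (avX h)`: `Slice (fun _ => F)` from `avX_slice` (rewrite with `funext`), `0 < ∫ F` from `avX_pos`, `HolData 1` from `avX_hol` (`2s < 1 ≤ 1`). `late` concludes; `HydroBounds` by `hydro_of_U` (as in `glob_plain`, H48/CV/FinG, see there how it is used).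
-/

set_option autoImplicit false

open MeasureTheory Set Filter Topology Pool.Agent.H25.Kin Pool.Agent.H48.PL Pool.Agent.H48.PD
open Pool.Agent.H82.BK Pool.Agent.H82.CM Pool.Agent.H48.PR Pool.Agent.H82.HF

namespace Pool.Agent.H85.HW

variable {d : ℕ} {h : Vec d → Vec d → Vec d → ℝ}

theorem w_hom {s γ : ℝ} (hd : 2 ≤ d) (hs : 0 < s) (h0 : 0 ≤ γ) (hs1 : 2 * s < 1)
    (h2 : γ + 2 * s < 2) {b : ℝ → ℝ} (hb : IsKernel d s b) (hh : Sch2 h)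
    (hn : ∀ x y v, 0 ≤ h x y v) (hv : ∀ x y, 0 < ∫ v, h x y v)
    (hom : ∀ x x' v, avX h x v = avX h x' v) (B : ℕ → ℝ) :
    ∃ (U : ℕ → ℝ) (M₀ : ℝ), ∃ m₁ > 0, ∀ τ > 0, ∃ ε > 0, ∃ n₀ : ℕ, ∀ N ≥ n₀, ∃ m₀ > 0,
      ∀ (T : ℝ) (f : ℝ → Vec d → Vec d → ℝ), IsBoltzmannSol γ b T f →
      (∀ (M : ℕ) (x v : Vec d), (1 + ‖v‖) ^ M * f 0 x v ≤ B M) →
      (∀ x v, |f 0 x v - h x ((N : ℝ) • x) v| ≤ ε) →
      ∀ t ∈ Ico 0 T, ∀ x, HydroBounds m₀ M₀ M₀ M₀ (f t x) ∧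
        (∀ (M : ℕ) (v : Vec d), (1 + ‖v‖) ^ M * f t x v ≤ U M) ∧
        (τ ≤ t → m₁ ≤ ∫ v, f t x v) := by
  have hF : avX h = fun _ => avX h 0 := by
    funext x v
    exact hom x 0 v
  obtain ⟨F, hFe⟩ : ∃ F : Vec d → ℝ, avX h = fun _ => F := ⟨avX h 0, hF⟩
  have hSl := avX_slice hh hn
  have hpos := avX_pos hh hn hv 0
  have hhol := avX_hol hh
  rw [hFe] at hSl hpos hhol
  have hN : Nb γ b (avX h) := by
    intro B'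
    obtain ⟨ε, hε, U, m, hm, key⟩ := Pool.Agent.H37.GH.g_hom hd hs h0 hs1 h2 hb (F := F) hSl hpos
      ⟨1, hs1, le_rfl, hhol⟩ B'
    refine ⟨ε, hε, U, m, hm, fun T f hf hB hc => key T f hf hB (fun x v => ?_)⟩
    have h3 := hc x v
    rw [hFe] at h3
    exact h3
  obtain ⟨U, m₁, hm₁, key⟩ := late hd hs h0 hs1 h2.le hb hh hn hv hN B
  obtain ⟨M₀, hM₀⟩ := Pool.Agent.H48.PI.hydro_of_U d U
  refine ⟨U, M₀, m₁, hm₁, fun τ hτ => ?_⟩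
  obtain ⟨ε', hε', n₀, k2⟩ := key τ hτ
  refine ⟨ε', hε', n₀, fun N hN => ?_⟩
  obtain ⟨m₀, hm₀, k3⟩ := k2 N hN
  refine ⟨m₀, hm₀, fun T f hf hB hc t ht x => ?_⟩
  have k4 := k3 T f hf hB hc
  obtain ⟨a1, a2, a3⟩ := k4 t ht x
  obtain ⟨g1, g2, g3⟩ := hM₀ T _ f hf (fun M t ht x v => (k4 t ht x).1 M v) t ht x
  exact ⟨⟨a2, g1, g2, g3⟩, a1, a3⟩

end Pool.Agent.H85.HW
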